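import Pool.Agent.H.MP_d5cca6_al.C

namespace Pool.Agent.Results.MP_d5cca6_al.No

open Pool.Agent.H.MP_d5cca6_al Set

lemma fin_R (R : ℝ) : {g : G | dist (CD.mq c1.o 0) (g • CD.mq c1.o 0) ≤ R ∧
    dist (CD.mq c2.o 0) (g • CD.mq c2.o 0) ≤ R}.Finite := by
  obtain ⟨K, -, hK⟩ := exists_mem_Ico_zpow (Real.exp_pos R) (one_lt_two (α := ℝ))
  let n : ℤ := ⌈R / Real.log 2⌉
  have hf := (fin_ball (K + 1) (Real.exp R)).prod (finite_Icc (-n) n)
  refine (hf.preimage (f := fun g : G => (g.1.left, g.1.right.toAdd)) ?_).subset ?_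
  · intro a _ b _ h
    simp only [Prod.mk.injEq] at h
    exact Subtype.ext (SemidirectProduct.ext h.1 h.2)
  · rintro g ⟨h1, h2⟩
    obtain ⟨a1, a2⟩ := CD.bound h1
    obtain ⟨-, b2⟩ := CD.bound h2
    have e1 : c1.ρ c1.o (g • c1.o) = len g.1.left := by
      change len ((1 * o true 0)⁻¹ * (g.1.left * φ g.1.right (1 * o true 0))) = _
      simp [o_zero]
    have e2 : c2.ρ c2.o (g • c2.o) = nm g.1.left := by
      change nm (1⁻¹ * (g.1.left * φ g.1.right 1)) = _
      simp
    rw [e1] at a2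
    rw [e2] at b2
    obtain ⟨k, k1, k2⟩ := nm_lt (left_N g) (b2.trans_lt hK)
    refine ⟨⟨k1.mono (Z_mono ((zpow_lt_zpow_iff_right₀ one_lt_two).1 k2).le), a2⟩, ?_⟩
    have h0 : 0 < Real.log 2 := Real.log_pos one_lt_two
    change |(g.1.right.toAdd : ℝ) * Real.log 2| ≤ R at a1
    rw [abs_mul, abs_of_pos h0, ← le_div_iff₀ h0] at a1
    have := a1.trans (Int.le_ceil _)
    rw [mem_Icc, ← abs_le]; exact_mod_cast this

lemma not_am : ¬ Amenable G := by
  rintro ⟨μ, h0, h1, ha, hi⟩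
  have mono : ∀ A B, A ⊆ B → μ A ≤ μ B := fun A B h => by
    have := ha A (B \ A) disjoint_sdiff_right
    rw [union_sdiff_cancel h] at this
    linarith [h0 (B \ A)]
  let A : Bool → Set G := fun i => {g | ((wd g.1.left).map Sigma.fst).head? ≠ some i}
  let B : Bool → ℝ → Set G := fun i r =>
    {g | (wd g.1.left).head? = some ⟨i, Multiplicative.ofAdd r⟩}
  have hAB : ∀ i (m : ℤ), m ≠ 0 → μ (A i) ≤ μ (B i m) := by
    intro i m hm
    have hz : (m : ℝ) ∈ Z 0 := ⟨m, by simp⟩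
    rw [← hi ⟨_, inl_o i 0 hz⟩]
    apply mono
    rintro _ ⟨g, hg, rfl⟩
    have hr : Red (⟨i, Multiplicative.ofAdd (m : ℝ)⟩ :: wd g.1.left) := ⟨fun x hx => by
      rcases List.mem_cons.1 hx with rfl | hx
      exacts [by simpa using hm, (red_w _).1 x hx], by
      rw [List.map_cons]
      refine (red_w _).2.cons fun y hy e => hg ?_
      rw [Option.mem_def] at hy
      rw [hy, ← e]⟩
    have := wd_P hr
    rw [P_cons, P_w] at this
    change (wd (o i m * φ 1 g.1.left)).head? = _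
    rw [map_one, MulAut.one_apply, o, this]; rfl
  have hA : 1 ≤ μ (A true) + μ (A false) := by
    have e : A true ∪ (A true)ᶜ = univ := union_compl_self _
    have := ha _ _ (disjoint_compl_right (a := A true))
    rw [e, h1] at this
    have := mono (A true)ᶜ (A false) fun g hg hg' => by
      simp only [A, mem_compl_iff, mem_ofPred_eq, not_not] at hg
      rw [hg] at hg'; cases hg'
    linarith
  have dj : ∀ i j r s, ¬ (i = j ∧ r = s) → Disjoint (B i r) (B j s) := by
    intro i j r s h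
    rw [Set.disjoint_left]
    intro g hg hg'
    simp only [B, mem_ofPred_eq] at hg hg'
    rw [hg] at hg'
    simp only [Option.some.injEq, Sigma.mk.injEq, heq_eq_eq, EmbeddingLike.apply_eq_iff_eq] at hg'
    exact h hg'
  have s1 := ha _ _ (dj true true 1 2 (by norm_num))
  have s2 := ha _ _ (dj false false 1 2 (by norm_num))
  have s3 := ha (B true 1 ∪ B true 2) (B false 1 ∪ B false 2) (by
    simp only [disjoint_union_left, disjoint_union_right]
    exact ⟨⟨dj _ _ _ _ (by simp), dj _ _ _ _ (by simp)⟩, dj _ _ _ _ (by simp), dj _ _ _ _ (by simp)⟩)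
  have s4 := mono ((B true 1 ∪ B true 2) ∪ (B false 1 ∪ B false 2)) univ (subset_univ _)
  have t1 := hAB true 1 one_ne_zero
  have t2 := hAB true 2 two_ne_zero
  have t3 := hAB false 1 one_ne_zero
  have t4 := hAB false 2 two_ne_zero
  push_cast at t1 t2 t3 t4
  linarith

theorem result : ∃ (G : Type) (_ : Group G), Group.FG G ∧ ¬ Amenable G ∧
    ∃ (X₁ X₂ : Type) (_ : MetricSpace X₁) (_ : MetricSpace X₂) (_ : MulAction G X₁)
      (_ : MulAction G X₂), Good G X₁ ∧ Good G X₂ ∧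
      ∀ B : Set (X₁ × X₂), (∃ R : ℝ, ∀ p ∈ B, ∀ q ∈ B, dist p.1 q.1 + dist p.2 q.2 ≤ R) →
        {g : G | ∃ p ∈ B, (g • p.1, g • p.2) ∈ B}.Finite := by
  refine ⟨G, inferInstance, ?_, not_am, c1.X, c2.X, inferInstance, inferInstance, inferInstance,
    inferInstance, CD.good, CD.good, ?_⟩
  · exact (Group.fg_iff_subgroup_fg _).2 ((Subgroup.fg_iff _).2 ⟨gens, rfl, by unfold gens; exact Set.toFinite _⟩)
  · rintro B ⟨R, hR⟩
    rcases B.eq_empty_or_nonempty with rfl | ⟨q, hq⟩
    · simp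
    refine (fin_R (3 * R + 2 * dist (CD.mq c1.o 0) q.1 + 2 * dist (CD.mq c2.o 0) q.2)).subset ?_
    rintro g ⟨p, hp, hg⟩
    have a1 := hR _ hq _ hg
    have a2 := hR _ hp _ hq
    have i1 := (CD.good (c := c1)).1 g
    have i2 := (CD.good (c := c2)).1 g
    have b1 := dist_triangle4 (CD.mq c1.o 0) q.1 (g • p.1) (g • CD.mq c1.o 0)
    have b2 := dist_triangle4 (CD.mq c2.o 0) q.2 (g • p.2) (g • CD.mq c2.o 0)
    have d1 := dist_triangle_right p.1 (CD.mq c1.o 0) q.1
    have d2 := dist_triangle_right p.2 (CD.mq c2.o 0) q.2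
    rw [i1] at b1
    rw [i2] at b2
    have := hR _ hq _ hq
    simp only [dist_self] at this a1
    constructor <;> linarith [dist_nonneg (x := q.1) (y := g • p.1),
      dist_nonneg (x := q.2) (y := g • p.2), dist_nonneg (x := p.1) (y := q.1),
      dist_nonneg (x := p.2) (y := q.2), dist_nonneg (x := CD.mq c1.o 0) (y := q.1),
      dist_nonneg (x := CD.mq c2.o 0) (y := q.2)]

end Pool.Agent.Results.MP_d5cca6_al.No
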